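import Mathlib
import Pool.Agent.R98.CNMain

set_option autoImplicit false

namespace Pool.Agent.Results.MP_d4af01_co.Order125

/-- The set of all sums of subsets of `A`, the empty sum included. -/
def SubsetSums {G : Type} [AddCommGroup G] (A : Finset G) : Set G :=
  {g | ∃ B : Finset G, B ⊆ A ∧ ∑ b ∈ B, b = g}

/-- `A = H ∪ A₁ ∪ A₂` with `H` a subgroup of order `|G| / 5`, `A₁ ⊆ a + H` and `A₂ ⊆ -a + H` for
some `a ∈ A`. -/
def CosetForm {G : Type} [AddCommGroup G] (A : Finset G) : Prop :=
  ∃ (H : AddSubgroup G) (A₁ A₂ : Set G), Nat.card H * 5 = Nat.card G ∧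
    (A : Set G) = (H : Set G) ∪ A₁ ∪ A₂ ∧
    ∃ a ∈ A, (∀ x ∈ A₁, x - a ∈ H) ∧ (∀ x ∈ A₂, x + a ∈ H)

/-- The characterisation of the extremal sets of size 28. -/
def Holds (G : Type) [AddCommGroup G] : Prop :=
  ∀ A : Finset G, A.card = 28 → (SubsetSums A ≠ Set.univ ↔ CosetForm A)

theorem main (G : Type) [AddCommGroup G] (hG : Nat.card G = 125) : Holds G := by
  classical
  have hfin : Finite G := Nat.finite_of_card_ne_zero (by omega)
  have : Fintype G := Fintype.ofFinite G
  rw [Nat.card_eq_fintype_card] at hG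
  intro A hA
  have h1 : SubsetSums A = (Pool.Agent.R98.CN.SS A : Set G) := by
    ext g
    rw [Finset.mem_coe, Pool.Agent.R98.CN.mem_SS]
    rfl
  have h2 : SubsetSums A ≠ Set.univ ↔ Pool.Agent.R98.CN.SS A ≠ Finset.univ := by
    rw [h1, ← Finset.coe_univ, Ne, Finset.coe_inj]
  rw [h2]
  exact ⟨Pool.Agent.R98.CN.forward hG A hA, Pool.Agent.R98.CN.backward hG A hA⟩

/-- For each of the three abelian groups of order `125`, and more generally for every abelian group
of order `125`, a set `A` of `28` elements has `ΣA ≠ G` if and only if it has coset form. -/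
theorem result :
    Holds (ZMod 125) ∧ Holds (ZMod 25 × ZMod 5) ∧ Holds (ZMod 5 × ZMod 5 × ZMod 5) ∧
      ∀ (G : Type) [AddCommGroup G], Nat.card G = 125 → Holds G := by
  refine ⟨main _ ?_, main _ ?_, main _ ?_, fun G _ h => main G h⟩
  · exact Nat.card_zmod 125
  · rw [Nat.card_prod, Nat.card_zmod, Nat.card_zmod]
  · rw [Nat.card_prod, Nat.card_prod, Nat.card_zmod]

end Pool.Agent.Results.MP_d4af01_co.Order125
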